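import Pool.Agent.H949.PM.BMain
import Pool.Agent.H949.PM.PoisTail
import Pool.Graph.R_pool_sql_team_seeded_620a6dc7.Helper56_LP.ExistsMobile

/-!
# The critical Brownian Pool model does not explode (MP_2ce40c_pr, Q1)

The radius process `poolRadius` and the states `state` of the Pool model are defined in
`Pool/Agent/H949/PM/Defs.lean`, for any distances `ρ i t` of the particles from the origin. The
Poisson process of particles which follow independent planar Brownian motions is `MobileNodes` in
`Pool/Graph/R_pool_sql_team_seeded_620a6dc7/Helper712_LP/Defs.lean`.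

Idea of the proof. Let `T > 0` and let `V(r)` be the number of particles which come within distance
`r` of the origin up to time `T`. If `V(r) < π r² - 1` for some `r` then the radius stays below `r`
up to time `T`, because every absorbed particle adds `1` to the area. Now `V(r)` is a Poisson variable
whose mean is the mean area of the Wiener sausage of radius `r`, which is at most `π r² + C r`. The
standard deviation is of the order `r` as well, so `V(r) < π r² - 1` has a probability which is
bounded away from `0` as `r → ∞`. Along radii which grow sufficiently fast these events are almost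
independent, so almost surely infinitely many of them occur.
-/

set_option autoImplicit false

namespace Pool.Agent.Results.MP_2ce40c_pr.NoExplosion

open MeasureTheory ProbabilityTheory Set Filter Topology
open scoped ENNReal NNReal
open Pool.Agent.Helper712_LP Pool.Agent.H949.PM

/-- (0) The particle system with the intensity `λ = 1` exists. (1) For every such system: almost
surely, for every time `t`, the radius of the pool at time `t` is finite and there are finitely many
engulfing times up to time `t`. So the critical Brownian Pool model almost surely does not explode. -/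
theorem result :
    (∃ (Ω : Type) (_ : MeasurableSpace Ω) (P : Measure Ω) (_ : IsProbabilityMeasure P)
      (X : ℕ → Ω → E 2) (Z : ℕ → ℝ≥0 → Ω → E 2), MobileNodes P 1 X Z) ∧
    ∀ (Ω : Type) [MeasurableSpace Ω] (P : Measure Ω) [IsProbabilityMeasure P]
      (X : ℕ → Ω → E 2) (Z : ℕ → ℝ≥0 → Ω → E 2), MobileNodes P 1 X Z →
      ∀ᵐ ω ∂P, ∀ t : ℝ≥0,
        poolRadius (fun (i : ℕ) (s : ℝ≥0) => ‖X i ω + Z i s ω‖) t < ∞ ∧
        {k : ℕ | (state (fun (i : ℕ) (s : ℝ≥0) => ‖X i ω + Z i s ω‖) k).τ ≤ t}.Finite := by
  refine ⟨Pool.Agent.Helper56_LP.exists_mobile 2 (by norm_num) 1 one_pos, ?_⟩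
  intro Ω _ P _ X Z h
  filter_upwards [brown poisTail Ω P X Z h] with ω hω t
  refine ⟨(hω t).lt_top, ?_⟩
  obtain ⟨k, -, h2, -⟩ := exists_last _ (hω t)
  refine (Set.finite_Iic k).subset fun j hj => ?_
  by_contra hjk
  have h3 : k + 1 ≤ j := by
    have : ¬ j ≤ k := hjk
    omega
  exact absurd (lt_of_lt_of_le h2 (tau_mono _ h3)) (not_lt.2 hj)

end Pool.Agent.Results.MP_2ce40c_pr.NoExplosion
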